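import Mathlib

set_option autoImplicit false

namespace Pool.Agent.Results.MP_8c8deb_an.NoUniform

/-- The product `A_{n-1} B_{n-1} ⋯ A_0 B_0` (sequences are indexed from `0`). -/
def prod {d : ℕ} (A B : ℕ → Matrix (Fin d) (Fin d) ℝ) : ℕ → Matrix (Fin d) (Fin d) ℝ
  | 0 => 1
  | (n + 1) => A n * B n * prod A B n

/-- target states of the `A` matrices -/
def sA : Bool → Fin 4 → Fin 4
  | true => ![0, 0, 2, 3]
  | false => ![1, 1, 3, 3]

/-- weights of the `A` matrices -/
def wA : Bool → Fin 4 → ℝ
  | true => ![1, 1, 2, 1]
  | false => ![2, 2, 1, 1]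

/-- target states of the `B` matrices -/
def sB : Bool → Fin 4 → Fin 4
  | true => ![0, 2, 0, 3]
  | false => id

def MA (c : Bool) : Matrix (Fin 4) (Fin 4) ℝ := Matrix.of fun i j => if i = sA c j then wA c j else 0

def MB (c : Bool) : Matrix (Fin 4) (Fin 4) ℝ := Matrix.of fun i j => if i = sB c j then 1 else 0

def F (α β : ℕ → Bool) : ℕ → Fin 4 → Fin 4
  | 0, j => j
  | (n + 1), j => sA (α n) (sB (β n) (F α β n j))

def W (α β : ℕ → Bool) : ℕ → Fin 4 → ℝ
  | 0, _ => 1
  | (n + 1), j => W α β n j * wA (α n) (sB (β n) (F α β n j))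

theorem prod_entry (α β : ℕ → Bool) (n : ℕ) (i j : Fin 4) :
    prod (fun n => MA (α n)) (fun n => MB (β n)) n i j
      = if i = F α β n j then W α β n j else 0 := by
  induction n generalizing i with
  | zero =>
    by_cases h : i = j <;> simp [prod, F, W, Matrix.one_apply, h]
  | succ n ih =>
    simp only [prod]
    rw [Matrix.mul_apply]
    simp only [ih]
    simp only [mul_ite, mul_zero, Finset.sum_ite_eq', Finset.mem_univ, if_true]
    rw [Matrix.mul_apply]
    simp only [MA, MB, Matrix.of_apply, mul_ite, mul_one, mul_zero, Finset.sum_ite_eq',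
      Finset.mem_univ, if_true, F, W]
    by_cases h : i = sA (α n) (sB (β n) (F α β n j))
    · simp [h, mul_comm]
    · simp [h]

theorem wA_bounds (c : Bool) (j : Fin 4) : 1 ≤ wA c j ∧ wA c j ≤ 2 := by
  cases c <;> fin_cases j <;> simp [wA]

theorem W_pos (α β : ℕ → Bool) (n : ℕ) (j : Fin 4) : 1 ≤ W α β n j := by
  induction n with
  | zero => simp [W]
  | succ n ih =>
    simp only [W]
    have := (wA_bounds (α n) (sB (β n) (F α β n j))).1
    nlinarith

theorem W_mono (α β : ℕ → Bool) (n : ℕ) (j : Fin 4) : W α β n j ≤ W α β (n + 1) j := by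
  simp only [W]
  have := (wA_bounds (α n) (sB (β n) (F α β n j))).1
  have h2 := W_pos α β n j
  nlinarith

theorem W_le (α β : ℕ → Bool) (n : ℕ) (j : Fin 4) : W α β n j ≤ 2 ^ n := by
  induction n with
  | zero => simp [W]
  | succ n ih =>
    simp only [W]
    have h1 := (wA_bounds (α n) (sB (β n) (F α β n j)))
    have h2 := W_pos α β n j
    rw [pow_succ]
    exact mul_le_mul ih h1.2 (by linarith) (by positivity)

theorem W_bdd (α β : ℕ → Bool) (T : ℕ)
    (h : ∀ n, T ≤ n → ∀ j, wA (α n) (sB (β n) (F α β n j)) = 1) (n : ℕ) (j : Fin 4) :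
    W α β n j ≤ 2 ^ T := by
  rcases le_total n T with hn | hn
  · calc W α β n j ≤ 2 ^ n := W_le α β n j
      _ ≤ 2 ^ T := pow_le_pow_right₀ (by norm_num) hn
  · induction n, hn using Nat.le_induction with
    | base => exact W_le α β T j
    | succ n hn ih =>
      simp only [W]
      rw [h n hn j, mul_one]
      exact ih

/-- Upper bound: for every `α` some `β` keeps the product bounded. -/
theorem exists_beta (α : ℕ → Bool) : ∃ β : ℕ → Bool, ∃ C : ℝ, ∀ n j, W α β n j ≤ C := by
  by_cases h1 : ∃ n, α n = false
  · obtain ⟨t, ht⟩ := h1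
    -- take the first one
    have hex : ∃ n, α n = false := ⟨t, ht⟩
    obtain ⟨t1, ht1, hmin⟩ : ∃ t1, α t1 = false ∧ ∀ m < t1, α m = true := by
      classical
      refine ⟨Nat.find hex, Nat.find_spec hex, fun m hm => ?_⟩
      have := Nat.find_min hex hm
      simpa using this
    by_cases h2 : ∃ t2, t1 < t2 ∧ α t2 = false
    · obtain ⟨t2, ht12, ht2⟩ := h2
      let β : ℕ → Bool := fun n => decide (n = t1 + 1)
      refine ⟨β, 2 ^ (t2 + 1), ?_⟩
      -- states before time t1
      have hA : ∀ n, n ≤ t1 → ∀ j, F α β n j = 0 ∨ F α β n j = 1 ∨ F α β n j = 2 ∨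
          F α β n j = 3 := by
        intro n _ j
        have : ∀ x : Fin 4, x = 0 ∨ x = 1 ∨ x = 2 ∨ x = 3 := by decide
        exact this _
      have hB : ∀ j, F α β (t1 + 1) j = 1 ∨ F α β (t1 + 1) j = 3 := by
        intro j
        simp only [F]
        have hb : β t1 = false := by simp [β]
        rw [hb, ht1]
        rcases hA t1 le_rfl j with h | h | h | h <;> rw [h] <;> simp [sA, sB]
      have hC : ∀ n, t1 + 1 ≤ n → ∀ j, sB (β n) (F α β n j) = 2 ∨ sB (β n) (F α β n j) = 3 := by
        intro n hn
        induction n, hn using Nat.le_induction with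
        | base =>
          intro j
          have hb : β (t1 + 1) = true := by simp [β]
          rw [hb]
          rcases hB j with h | h <;> rw [h] <;> simp [sB]
        | succ n hn ih =>
          intro j
          have hb : β (n + 1) = false := by simp [β]; omega
          rw [hb]
          change sA (α n) (sB (β n) (F α β n j)) = 2 ∨ sA (α n) (sB (β n) (F α β n j)) = 3
          rcases ih j with h | h <;> rw [h] <;> cases α n <;> simp [sA]
      have hD : ∀ n, t2 + 1 ≤ n → ∀ j, F α β n j = 3 := by
        intro n hn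
        induction n, hn using Nat.le_induction with
        | base =>
          intro j
          simp only [F]
          rw [ht2]
          rcases hC t2 (by omega) j with h | h <;> rw [h] <;> simp [sA]
        | succ n hn ih =>
          intro j
          simp only [F]
          rw [ih j]
          cases α n <;> cases β n <;> simp [sA, sB]
      apply W_bdd
      intro n hn j
      rw [hD n hn j]
      cases α n <;> cases β n <;> simp [wA, sB]
    · push Not at h2
      have h2' : ∀ m, t1 < m → α m = true := fun m hm => by simpa using h2 m hm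
      refine ⟨fun _ => false, 2 ^ (t1 + 1), ?_⟩
      have hB : ∀ n, t1 + 1 ≤ n → ∀ j, F α (fun _ => false) n j = 0 ∨
          F α (fun _ => false) n j = 1 ∨ F α (fun _ => false) n j = 3 := by
        intro n hn
        induction n, hn using Nat.le_induction with
        | base =>
          intro j
          simp only [F]
          rw [ht1]
          have : ∀ x : Fin 4, x = 0 ∨ x = 1 ∨ x = 2 ∨ x = 3 := by decide
          rcases this (F α (fun _ => false) t1 j) with h | h | h | h <;> rw [h] <;>
            simp [sA, sB]
        | succ n hn ih =>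
          intro j
          simp only [F]
          rw [h2' n (by omega)]
          rcases ih j with h | h | h <;> rw [h] <;> simp [sA, sB]
      apply W_bdd
      intro n hn j
      rw [h2' n (by omega)]
      rcases hB n hn j with h | h | h <;> rw [h] <;> simp [wA, sB]
  · push Not at h1
    have h1' : ∀ m, α m = true := fun m => by simpa using h1 m
    let β : ℕ → Bool := fun n => decide (n < 2)
    refine ⟨β, 2 ^ 2, ?_⟩
    have hB : ∀ n, 2 ≤ n → ∀ j, F α β n j = 0 ∨ F α β n j = 3 := by
      intro n hn
      induction n, hn using Nat.le_induction with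
      | base =>
        intro j
        simp only [F]
        rw [h1' 0, h1' 1]
        have hb0 : β 0 = true := by simp [β]
        have hb1 : β 1 = true := by simp [β]
        rw [hb0, hb1]
        fin_cases j <;> simp [sA, sB]
      | succ n hn ih =>
        intro j
        simp only [F]
        rw [h1' n]
        have hb : β n = false := by simp [β]; omega
        rw [hb]
        rcases ih j with h | h <;> rw [h] <;> simp [sA, sB]
    apply W_bdd
    intro n hn j
    rw [h1' n]
    have hb : β n = false := by simp [β]; omega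
    rw [hb]
    rcases hB n hn j with h | h <;> rw [h] <;> simp [wA, sB]

/-- Lower bound along the word `(a^N b)^N`. -/
theorem lower (N : ℕ) (β : ℕ → Bool) (k : ℕ) :
    2 ^ N ≤ W (fun k => decide (k % (N + 1) < N)) β k 0 ∨
    (2 ^ (k / (N + 1)) ≤ W (fun k => decide (k % (N + 1) < N)) β k 0 ∧
      ((k % (N + 1) = 0 ∧ F (fun k => decide (k % (N + 1) < N)) β k 0 = 1) ∨
        F (fun k => decide (k % (N + 1) < N)) β k 0 = 0 ∨
        (F (fun k => decide (k % (N + 1) < N)) β k 0 = 2 ∧
          2 ^ (k % (N + 1)) ≤ W (fun k => decide (k % (N + 1) < N)) β k 0))) := by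
  set α : ℕ → Bool := fun k => decide (k % (N + 1) < N) with hα
  induction k with
  | zero => right; simp [W, F]
  | succ k ih =>
    rcases ih with h | ⟨hW, hF⟩
    · left; exact h.trans (W_mono α β k 0)
    by_cases hr : k % (N + 1) < N
    · -- letter `a`
      have ha : α k = true := by simp [hα, hr]
      have hdiv : (k + 1) / (N + 1) = k / (N + 1) := by
        rw [Nat.succ_div_of_not_dvd]
        intro hd
        have := Nat.mod_eq_zero_of_dvd hd
        rw [Nat.add_mod] at this
        have h1 : 1 % (N + 1) = 1 := Nat.mod_eq_of_lt (by omega)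
        rw [h1, Nat.mod_eq_of_lt (by omega)] at this
        omega
      have hmod : (k + 1) % (N + 1) = k % (N + 1) + 1 := by
        rw [Nat.add_mod]
        have h1 : 1 % (N + 1) = 1 := Nat.mod_eq_of_lt (by omega)
        rw [h1, Nat.mod_eq_of_lt (by omega)]
      right
      refine ⟨by rw [hdiv]; exact hW.trans (W_mono α β k 0), ?_⟩
      rw [hmod]
      simp only [F, W, ha]
      rcases hF with ⟨h0, h1⟩ | h1 | ⟨h1, h2⟩
      · rw [h1, h0]
        cases β k
        · right; left; simp [sA, sB]
        · right; right
          refine ⟨by simp [sA, sB], ?_⟩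
          simp only [sB, wA]
          have := W_pos α β k 0
          simp
          linarith
      · rw [h1]
        cases β k <;> (right; left; simp [sA, sB])
      · rw [h1]
        cases β k
        · right; right
          refine ⟨by simp [sA, sB], ?_⟩
          simp only [sB, wA, id]
          rw [pow_succ]
          simp
          linarith
        · right; left; simp [sA, sB]
    · -- letter `b`
      have hb : α k = false := by simp only [hα, decide_eq_false_iff_not]; exact hr
      have hr' : k % (N + 1) = N := by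
        have h3 : k % (N + 1) < N + 1 := Nat.mod_lt k (Nat.succ_pos N)
        omega
      have hdvd : (N + 1) ∣ k + 1 := by
        apply Nat.dvd_of_mod_eq_zero
        rw [Nat.add_mod, hr']
        rcases Nat.eq_zero_or_pos N with h | h
        · subst h; simp
        · rw [Nat.mod_eq_of_lt (a := 1) (by omega)]; simp
      have hdiv : (k + 1) / (N + 1) = k / (N + 1) + 1 := Nat.succ_div_of_dvd hdvd
      have hmod : (k + 1) % (N + 1) = 0 := Nat.mod_eq_zero_of_dvd hdvd
      rcases hF with ⟨h0, h1⟩ | h1 | ⟨h1, h2⟩
      · left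
        have hN : N = 0 := by omega
        rw [hN, pow_zero]
        exact W_pos α β (k + 1) 0
      · right
        rw [hdiv, hmod]
        simp only [F, W, hb, h1]
        have e : sB (β k) 0 = 0 := by cases β k <;> simp [sB]
        rw [e]
        refine ⟨?_, Or.inl ⟨trivial, by simp [sA]⟩⟩
        rw [pow_succ]
        simp only [wA]
        simp
        linarith
      · left
        rw [hr'] at h2
        exact h2.trans (W_mono α β k 0)

/-- There are finite sets `𝒜`, `ℬ` of real matrices such that for every sequence in `𝒜` some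
sequence in `ℬ` makes the products bounded, but with no uniform bound. The size of a matrix is
measured by its largest entry. -/
theorem result : ∃ (d : ℕ) (𝒜 ℬ : Finset (Matrix (Fin d) (Fin d) ℝ)),
    𝒜.Nonempty ∧ ℬ.Nonempty ∧
    (∀ A : ℕ → Matrix (Fin d) (Fin d) ℝ, (∀ n, A n ∈ 𝒜) →
      ∃ B : ℕ → Matrix (Fin d) (Fin d) ℝ, (∀ n, B n ∈ ℬ) ∧
        ∃ C : ℝ, ∀ n i j, |prod A B n i j| ≤ C) ∧
    (∀ C : ℝ, ∃ A : ℕ → Matrix (Fin d) (Fin d) ℝ, (∀ n, A n ∈ 𝒜) ∧
      ∀ B : ℕ → Matrix (Fin d) (Fin d) ℝ, (∀ n, B n ∈ ℬ) →
        ∃ n i j, C < |prod A B n i j|) := by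
  classical
  refine ⟨4, Finset.univ.image MA, Finset.univ.image MB, ?_, ?_, ?_, ?_⟩
  · exact ⟨MA true, Finset.mem_image_of_mem _ (Finset.mem_univ _)⟩
  · exact ⟨MB true, Finset.mem_image_of_mem _ (Finset.mem_univ _)⟩
  · intro A hA
    have : ∀ n, ∃ c, MA c = A n := fun n => by
      obtain ⟨c, _, hc⟩ := Finset.mem_image.mp (hA n)
      exact ⟨c, hc⟩
    choose α hα using this
    have hAα : A = fun n => MA (α n) := by funext n; exact (hα n).symm
    obtain ⟨β, C, hC⟩ := exists_beta α
    refine ⟨fun n => MB (β n), fun n => Finset.mem_image_of_mem _ (Finset.mem_univ _), C, ?_⟩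
    intro n i j
    rw [hAα, prod_entry]
    have h1 := W_pos α β n j
    split_ifs
    · rw [abs_of_nonneg (by linarith)]; exact hC n j
    · rw [abs_zero]; linarith [hC n j]
  · intro C
    obtain ⟨N, hN⟩ := pow_unbounded_of_one_lt C (one_lt_two (α := ℝ))
    refine ⟨fun k => MA (decide (k % (N + 1) < N)),
      fun n => Finset.mem_image_of_mem _ (Finset.mem_univ _), ?_⟩
    intro B hB
    have : ∀ n, ∃ c, MB c = B n := fun n => by
      obtain ⟨c, _, hc⟩ := Finset.mem_image.mp (hB n)
      exact ⟨c, hc⟩
    choose β hβ using this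
    have hBβ : B = fun n => MB (β n) := by funext n; exact (hβ n).symm
    let α : ℕ → Bool := fun k => decide (k % (N + 1) < N)
    refine ⟨N * (N + 1), F α β (N * (N + 1)) 0, 0, ?_⟩
    rw [hBβ]
    have he := prod_entry α β (N * (N + 1)) (F α β (N * (N + 1)) 0) 0
    rw [if_pos rfl] at he
    change C < |prod (fun n => MA (α n)) (fun n => MB (β n)) (N * (N + 1))
      (F α β (N * (N + 1)) 0) 0|
    rw [he]
    have h1 : 2 ^ N ≤ W α β (N * (N + 1)) 0 := by
      rcases lower N β (N * (N + 1)) with h | ⟨h, _⟩
      · exact h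
      · rw [Nat.mul_div_cancel _ (Nat.succ_pos N)] at h
        exact h
    calc C < 2 ^ N := hN
      _ ≤ W α β (N * (N + 1)) 0 := h1
      _ ≤ |W α β (N * (N + 1)) 0| := le_abs_self _

end Pool.Agent.Results.MP_8c8deb_an.NoUniform
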